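import Pool.Agent.V11260.Loc.Fin
import Pool.Agent.W788.BK.Unif
import Pool.Agent.W193.BK.ES
import Pool.Agent.W240.BK.Var
import Pool.Agent.W540.BK.Fac
import Pool.Agent.W240.BK.Fluct
import Pool.Agent.W918.BK.Osc
import Pool.Agent.W240.BK.Two
import Pool.Agent.W465.BK.QB
import Pool.Agent.W475.BK.Low
import Pool.Agent.W975.BK.Sup
import Pool.Agent.W790.BK.ADM
import Pool.Agent.W475.BK.Inv
import Pool.Agent.W261.BK.Third

/-!
# The uniform Anderson model at weak disorder, `d ≥ 3`: eigenfunctions are long or negligible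

`Δ_ω = -Δ + ω` on `ℤ^d`, `d ≥ 3`, with iid `ω_j` uniform on `[-c, c]`. Call `f ∈ ℓ²(ℤ^d)` *short* if it is
centred somewhere and decays exponentially with a localization length `≤ c^{-(2+1/80-δ)}`:

  `|f(x)| ≤ c^{-C} exp(-c^{2+1/80-δ} |x - y|)` for all `x`, for some `y ∈ ℤ^d`.

(`C` is arbitrarily large, `δ > 0` arbitrarily small.) For `c ≤ c₀`, with probability at least
`1 - exp(-c^{-1/101})`, simultaneously for all sites `|a| ≤ exp(c^{-1/101})` and all energies `e` with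
`κ ≤ |2d - e| ≤ 2d - κ`, with `η = c^{2+1/40}` and `u = (Δ_ω - e - iη)⁻¹ δ_a`:

1. the local density of states at `a` and `e` on the scale `η` is bounded below,
   `η ∑_x |u(x)|² = Im ⟨δ_a, (Δ_ω - e - iη)⁻¹ δ_a⟩ ≥ m₀(κ, d) > 0`;
2. every orthonormal family `(φ_n)` of short eigenfunctions, `Δ_ω φ_n = E_n φ_n`, carries at most a small
   part of it: `∑_n |φ_n(a)|² η / ((E_n - e)² + η²) ≤ ε`;
3. hence, if `Δ_ω` has a complete orthonormal system of eigenfunctions (pure point spectrum, one form of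
   purely singular spectrum), then the eigenfunctions that are *not* short carry almost everything:
   `∑_{φ_n not short} |φ_n(a)|² η / ((E_n - e)² + η²) ≥ m₀ - ε`.

So the point spectrum, if any, is either negligible or made of eigenfunctions longer than
`c^{-(2+1/80-δ)}`, beyond the kinetic scale `c^{-2}`.
-/

set_option autoImplicit false

open scoped BigOperators ENNReal Topology
open MeasureTheory Filter Set

namespace Pool.Agent.Results.MP_562b47_mp.LocalizationLength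

/-- the uniform law on `[-c, c]` -/
noncomputable def unif (c : ℝ) : Measure ℝ :=
  ENNReal.ofReal (1 / (2 * c)) • volume.restrict (Set.Icc (-c) c)

/-- `(Δ_ω u)(j) = -∑_{|n|=1} (u(j+n) - u(j)) + ω_j u(j)` -/
noncomputable def H {d : ℕ} (ω : (Fin d → ℤ) → ℝ) (u : (Fin d → ℤ) → ℂ) (j : Fin d → ℤ) : ℂ :=
  -∑ i : Fin d, ((u (j + Pi.single i 1) - u j) + (u (j - Pi.single i 1) - u j)) + (ω j : ℂ) * u j

/-- `u = (Δ_ω - e - iη)⁻¹ δ_a` in `ℓ²(ℤ^d)` -/
structure IsGreen {d : ℕ} (ω : (Fin d → ℤ) → ℝ) (a : Fin d → ℤ) (e η : ℝ)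
    (u : (Fin d → ℤ) → ℂ) : Prop where
  sq : Summable fun x => ‖u x‖ ^ 2
  eq : ∀ x, H ω u x - ((e : ℂ) + (η : ℂ) * Complex.I) * u x = if x = a then 1 else 0

/-- the scale `η = c^{2+1/40}` -/
noncomputable def scale (c : ℝ) : ℝ := c ^ (2 + 1 / 40 : ℝ)

/-- an orthonormal family in `ℓ²(ℤ^d)` of eigenfunctions of `Δ_ω`, `Δ_ω φ_n = E_n φ_n` -/
structure IsEigenFamily {d : ℕ} {ι : Type} (ω : (Fin d → ℤ) → ℝ) (φ : ι → (Fin d → ℤ) → ℂ)
    (E : ι → ℝ) : Prop where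
  sq : ∀ n, Summable fun x => ‖φ n x‖ ^ 2
  norm : ∀ n, ∑' x, ‖φ n x‖ ^ 2 = 1
  orth : ∀ m n, m ≠ n → ∑' x, (starRingEnd ℂ) (φ m x) * φ n x = 0
  eig : ∀ n x, H ω (φ n) x = (E n : ℂ) * φ n x

/-- complete: only `0` is orthogonal to all `φ_n` -/
def IsComplete {d : ℕ} {ι : Type} (φ : ι → (Fin d → ℤ) → ℂ) : Prop :=
  ∀ u : (Fin d → ℤ) → ℂ, (Summable fun x => ‖u x‖ ^ 2) →
    (∀ n, ∑' x, (starRingEnd ℂ) (φ n x) * u x = 0) → ∀ x, u x = 0

/-- short: centred somewhere, with a localization length at most `c^{-(2+1/80-δ)}` -/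
def Short {d : ℕ} (c C δ : ℝ) (f : (Fin d → ℤ) → ℂ) : Prop :=
  ∃ y : Fin d → ℤ, ∀ x, ‖f x‖ ≤ c ^ (-C) * Real.exp (-(c ^ (2 + 1 / 80 - δ) * ‖x - y‖))

/-- the part `|φ(a)|² η / ((E - e)² + η²)` of an eigenfunction in the local density of states -/
noncomputable def part {d : ℕ} (c : ℝ) (a : Fin d → ℤ) (e E : ℝ) (f : (Fin d → ℤ) → ℂ) : ℝ :=
  ‖f a‖ ^ 2 * (scale c / ((E - e) ^ 2 + scale c ^ 2))

/-- the local density of states `η ∑_x |u(x)|² = Im ⟨δ_a, (Δ_ω - e - iη)⁻¹ δ_a⟩` is at least `m0` -/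
def TotalBound {d : ℕ} (m0 c : ℝ) (ω : (Fin d → ℤ) → ℝ) (a : Fin d → ℤ) (e : ℝ) : Prop :=
  (∃ u, IsGreen ω a e (scale c) u) ∧
    ∀ u, IsGreen ω a e (scale c) u → m0 ≤ scale c * ∑' x, ‖u x‖ ^ 2

/-- orthonormal families of short eigenfunctions carry at most `ε` -/
def ShortBound {d : ℕ} (C δ ε c : ℝ) (ω : (Fin d → ℤ) → ℝ) (a : Fin d → ℤ) (e : ℝ) : Prop :=
  ∀ (ι : Type) (φ : ι → (Fin d → ℤ) → ℂ) (E : ι → ℝ), IsEigenFamily ω φ E →
    (∀ n, Short c C δ (φ n)) →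
      (Summable fun n => part c a e (E n) (φ n)) ∧ ∑' n, part c a e (E n) (φ n) ≤ ε

/-- in a complete orthonormal system of eigenfunctions those that are not short carry at least `m` -/
def LongBound {d : ℕ} (C δ m c : ℝ) (ω : (Fin d → ℤ) → ℝ) (a : Fin d → ℤ) (e : ℝ) : Prop :=
  ∀ (ι : Type) (φ : ι → (Fin d → ℤ) → ℂ) (E : ι → ℝ), IsEigenFamily ω φ E → IsComplete φ →
    (Summable fun n : {n // ¬ Short c C δ (φ n)} => part c a e (E n.1) (φ n.1)) ∧
      m ≤ ∑' n : {n // ¬ Short c C δ (φ n)}, part c a e (E n.1) (φ n.1)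

theorem H_eq {d : ℕ} (ω : (Fin d → ℤ) → ℝ) (u : (Fin d → ℤ) → ℂ) (x : Fin d → ℤ) :
    H ω u x = -Pool.Agent.W788.LD.Spec.S u x + ((2 * d + ω x : ℝ) : ℂ) * u x := by
  unfold H Pool.Agent.W788.LD.Spec.S
  have h2 : ∑ i : Fin d, ((u (x + Pi.single i 1) - u x) + (u (x - Pi.single i 1) - u x)) =
      ∑ i : Fin d, (u (x + Pi.single i 1) + u (x - Pi.single i 1)) - 2 * (d : ℂ) * u x := by
    rw [Finset.sum_add_distrib, Finset.sum_sub_distrib, Finset.sum_sub_distrib,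
      Finset.sum_add_distrib]
    simp
    ring
  rw [h2]
  push_cast
  ring

theorem green_iff {d : ℕ} (ω : (Fin d → ℤ) → ℝ) (a : Fin d → ℤ) (e η : ℝ)
    (u : (Fin d → ℤ) → ℂ) : IsGreen ω a e η u ↔
      Pool.Agent.TH794.QE.Rs d (fun x => 2 * d + ω x) a e η u := by
  constructor
  · intro hu
    refine ⟨hu.sq, fun x => ?_⟩
    rw [← H_eq]
    exact hu.eq x
  · intro hu
    refine ⟨hu.sq, fun x => ?_⟩
    rw [H_eq]
    exact hu.eq x

theorem unif_sq : ∫ s, (s - 0) ^ 2 ∂(unif 1) = 1 / 3 := by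
  unfold unif
  simp only [sub_zero]
  rw [integral_smul_measure, integral_Icc_eq_integral_Ioc,
    ← intervalIntegral.integral_of_le (by norm_num), integral_pow,
    ENNReal.toReal_ofReal (by positivity), smul_eq_mul]
  norm_num

/-- **Theorem.** -/
theorem result (d : ℕ) (hd : 3 ≤ d) (κ : ℝ) (hκ : 0 < κ) (hκ1 : κ ≤ 1) : ∃ m0 : ℝ, 0 < m0 ∧
    ∀ C δ ε : ℝ, 0 < δ → δ ≤ 1 → 0 < ε → ∃ c0 : ℝ, 0 < c0 ∧ ∀ c : ℝ, 0 < c → c ≤ c0 →
      ∃ G : Set ((Fin d → ℤ) → ℝ), MeasurableSet G ∧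
        1 - Real.exp (-c ^ (-(1 / 101) : ℝ)) ≤
          (Measure.infinitePi fun _ : Fin d → ℤ => unif c).real G ∧
        ∀ ω ∈ G, ∀ a : Fin d → ℤ, ‖a‖ ≤ Real.exp (c ^ (-(1 / 101) : ℝ)) →
          ∀ e : ℝ, κ ≤ |2 * d - e| → |2 * d - e| ≤ 2 * d - κ →
            TotalBound m0 c ω a e ∧ ShortBound C δ ε c ω a e ∧ LongBound C δ (m0 - ε) c ω a e := by
  obtain ⟨m0, hm0, h⟩ := Pool.Agent.V11260.Loc.loc_main Pool.Agent.W193.BK.ES.es
    (Pool.Agent.W261.BK.third Pool.Agent.W540.BK.fac)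
    (Pool.Agent.W240.BK.fluct (Pool.Agent.W240.BK.var Pool.Agent.W193.BK.ES.es))
    Pool.Agent.W475.BK.inv Pool.Agent.W975.BK.sup
    (Pool.Agent.W465.BK.qb (Pool.Agent.W240.BK.two Pool.Agent.W918.BK.Osc.osc))
    Pool.Agent.W475.BK.low Pool.Agent.W790.BK.ADM.adm Pool.Agent.W540.BK.fac
    Pool.Agent.W918.BK.Osc.osc d (by omega) κ hκ hκ1
  refine ⟨m0, hm0, fun C δ ε hδ hδ1 hε => ?_⟩
  obtain ⟨l0, hl0, h4⟩ := h 1 (1 / 3) C δ ε one_pos (by norm_num) hδ hδ1 hε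
  refine ⟨l0, hl0, fun c hc hcc => ?_⟩
  have hu1 := Pool.Agent.W788.LD.Uni.unif_prob 1 one_pos
  have huc := Pool.Agent.W788.LD.Uni.unif_prob c hc
  have huc' : IsProbabilityMeasure (unif c) := huc
  obtain ⟨G, hG, hP, hL⟩ := h4 c hc hcc (Pool.Agent.W788.LD.Uni.unif 1) hu1
    (Pool.Agent.W788.LD.Uni.unif_bdd 1) 0 (1 / 3) (Pool.Agent.W788.LD.Uni.unif_mean 1 one_pos)
    unif_sq le_rfl
  have hTm : Measurable (fun (ω : (Fin d → ℤ) → ℝ) x => ω x / c) := by fun_prop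
  have hlaw : (Measure.infinitePi fun _ : Fin d → ℤ => unif c).map (fun ω x => ω x / c) =
      Measure.infinitePi fun _ : Fin d → ℤ => Pool.Agent.W788.LD.Uni.unif 1 := by
    have h1 := Measure.infinitePi_map_pi (μ := fun _ : Fin d → ℤ => unif c)
      (f := fun _ (s : ℝ) => s / c) (fun _ => by fun_prop)
    rw [h1]
    congr 1
    funext _
    exact Pool.Agent.W788.BK.Unif.unif_scale c hc
  refine ⟨(fun ω x => ω x / c) ⁻¹' G, hTm hG, ?_, fun ω hω a ha e he1 he2 => ?_⟩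
  · have h1 : (Measure.infinitePi fun _ : Fin d → ℤ => unif c).real
        ((fun ω x => ω x / c) ⁻¹' G) =
        (Measure.infinitePi fun _ : Fin d → ℤ => Pool.Agent.W788.LD.Uni.unif 1).real G := by
      rw [← hlaw, map_measureReal_apply hTm hG]
    rw [h1]
    exact hP
  obtain ⟨hωb, hL'⟩ := hL _ hω
  have e0 : (fun x : Fin d → ℤ => 2 * (d : ℝ) + c * (ω x / c)) = fun x => 2 * (d : ℝ) + ω x := by
    funext x
    field_simp
  have e0' : ∀ x : Fin d → ℤ, 2 * (d : ℝ) + c * (ω x / c) = 2 * (d : ℝ) + ω x := by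
    intro x
    field_simp
  have e1 : scale c = c ^ (81 / 40 : ℝ) := by
    unfold scale
    norm_num
  have e2 : (2 + 1 / 80 - δ : ℝ) = 161 / 80 - δ := by ring
  simp only [e0'] at hL'
  rw [← e1] at hL'
  have hη0 : 0 < scale c := by rw [e1]; positivity
  have hS : 2 * (d : ℝ) + c * 0 - e ∈ Pool.Agent.V11260.QT.SR d κ := by
    have e3 : 2 * (d : ℝ) + c * 0 - e = 2 * d - e := by ring
    rw [e3]
    exact ⟨he1, he2⟩
  obtain ⟨u0, hu0⟩ := Pool.Agent.TH794.QE.rs_exists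
    (fun x => 2 * (d : ℝ) + ω x) (2 * d + c) (fun x => by
      refine (abs_add_le _ _).trans ?_
      rw [abs_of_nonneg (by positivity : (0 : ℝ) ≤ 2 * d)]
      have h5 := hωb x
      simp only at h5
      rw [abs_div, abs_of_pos hc, div_le_iff₀ hc] at h5
      linarith) a e (scale c) hη0
  obtain ⟨hm, hloc⟩ := hL' a ha e hS u0 hu0
  have hfam : ∀ (ι : Type) (φ : ι → (Fin d → ℤ) → ℂ) (E : ι → ℝ), IsEigenFamily ω φ E →
      (∀ n, Short c C δ (φ n)) → ∀ F : Finset ι, ∑ n ∈ F, part c a e (E n) (φ n) ≤ ε := by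
    intro ι φ E hE hc' F
    choose y hy using hc'
    rw [e2] at hy
    exact hloc _ (Pool.Agent.V11260.Loc.ortho φ hE.sq hE.norm hE.orth) E
      (fun n x => (H_eq ω (φ n) x).symm.trans (hE.eig n x)) y hy F
  refine ⟨⟨⟨u0, (green_iff ω a e (scale c) u0).2 hu0⟩, fun u hu =>
    (hL' a ha e hS u ((green_iff ω a e (scale c) u).1 hu)).1⟩, fun ι φ E hE hc' => ?_,
    fun ι φ E hE hcom => ?_⟩
  · have h0 : ∀ n, 0 ≤ part c a e (E n) (φ n) := fun n => by
      unfold part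
      positivity
    have h1 := hfam ι φ E hE hc'
    exact ⟨summable_of_sum_le h0 h1, Real.tsum_le_of_sum_le h0 h1⟩
  · refine Pool.Agent.V11260.Loc.basis_part2 hu0 hη0 φ hE.sq hE.norm hE.orth hcom E
      (fun n x => by rw [← H_eq]; exact hE.eig n x)
      (fun n => Short c C δ (φ n)) m0 ε hm (fun F => ?_)
    exact hfam _ (fun n : {n // Short c C δ (φ n)} => φ n.1) (fun n => E n.1)
      ⟨fun n => hE.sq n.1, fun n => hE.norm n.1,
        fun m n hmn => hE.orth m.1 n.1 fun h => hmn (Subtype.ext h), fun n x => hE.eig n.1 x⟩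
      (fun n => n.2) F

end Pool.Agent.Results.MP_562b47_mp.LocalizationLength
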