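import Pool.Agent.TH794.QE.FinC
import Pool.Agent.W788.LD.Uni
import Pool.Agent.W193.BK.ES
import Pool.Agent.W240.BK.Var
import Pool.Agent.W540.BK.Fac
import Pool.Agent.W240.BK.Fluct
import Pool.Agent.W918.BK.Osc
import Pool.Agent.W240.BK.Two
import Pool.Agent.W465.BK.QB
import Pool.Agent.W475.BK.Low
import Pool.Agent.W975.BK.Sup
import Pool.Agent.W790.BK.ADM
import Pool.Agent.W475.BK.Inv
import Pool.Agent.W261.BK.Third

/-!
# The planar uniform Anderson model at weak disorder: the conductivity beyond the kinetic scale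

`Δ_ω = -Δ + ω` on `ℤ²`, with iid `ω_j` uniform on `[-c, c]`. Let `G(x, a; z)` be the kernel of
`(Δ_ω - z)⁻¹` and

  `s_η(a, e) = η² ∑_x (x_j - a_j)² |G(x, a; e + iη)|²`,

whose mean value as `η → 0` is, up to a constant factor, Kubo's formula for the direct current
conductivity at the energy `e`. By the starting result `MP_562b47_mp.ConductivityDivergence` it
tends to infinity, as `η → 0`, at almost every energy of absolutely continuous spectrum. We determine it on the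
scales down to `c^{2 + 1/40}`, which is beyond the kinetic scale `c²`: for every `κ > 0` and all small
`c`, with probability at least `1 - exp(-c^{-1/101})`,

  `(c² / 3) s_η(a, e) = 2 Im g₁(E) / (3 η / c² + Im g₀(E)) + O(c^{1/300})`,  `E = 4 - e`,

simultaneously for all sites `|a| ≤ exp(c^{-1/101})`, all energies `e` with `κ ≤ |4 - e| ≤ 4 - κ` and
all `c^{2 + 1/40} ≤ η ≤ c² / 3`. Here `g₀`, `g₁` are the boundary values of the free resolvent and of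
the free resolvent with the weight `sin²(2πk₁)`. So for `η` small against `c²` the conductivity has the value
of the linear Boltzmann equation, without a trace of a divergence or of a decay.
-/

set_option autoImplicit false

open scoped BigOperators ENNReal Topology
open MeasureTheory Filter

namespace Pool.Agent.Results.MP_562b47_mp.PlanarConductivity

/-- the uniform law on `[-c, c]` -/
noncomputable def unif (c : ℝ) : Measure ℝ :=
  ENNReal.ofReal (1 / (2 * c)) • volume.restrict (Set.Icc (-c) c)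

/-- `(Δ_ω u)(j) = -∑_{|n|=1} (u(j+n) - u(j)) + ω_j u(j)` on `ℤ²` -/
noncomputable def H (ω : (Fin 2 → ℤ) → ℝ) (u : (Fin 2 → ℤ) → ℂ) (j : Fin 2 → ℤ) : ℂ :=
  -∑ i : Fin 2, ((u (j + Pi.single i 1) - u j) + (u (j - Pi.single i 1) - u j)) + (ω j : ℂ) * u j

/-- `u = (Δ_ω - e - iη)⁻¹ δ_a` in `ℓ²(ℤ²)` -/
structure IsGreen (ω : (Fin 2 → ℤ) → ℝ) (a : Fin 2 → ℤ) (e η : ℝ) (u : (Fin 2 → ℤ) → ℂ) :
    Prop where
  sq : Summable fun x => ‖u x‖ ^ 2
  eq : ∀ x, H ω u x - ((e : ℂ) + (η : ℂ) * Complex.I) * u x = if x = a then 1 else 0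

/-- the free resolvent `∫_{[0,1]²} (2 cos 2πk₁ + 2 cos 2πk₂ - z)⁻¹ dk` -/
noncomputable def R0 (z : ℂ) : ℂ :=
  ∫ k in Set.Icc (0 : Fin 2 → ℝ) 1,
    (((∑ i, 2 * Real.cos (2 * Real.pi * k i) : ℝ) : ℂ) - z)⁻¹

/-- the weighted free resolvent `∫_{[0,1]²} sin²(2πk₁) (2 cos 2πk₁ + 2 cos 2πk₂ - z)⁻¹ dk` -/
noncomputable def R1 (z : ℂ) : ℂ :=
  ∫ k in Set.Icc (0 : Fin 2 → ℝ) 1, ((Real.sin (2 * Real.pi * k 0) ^ 2 : ℝ) : ℂ) *
    (((∑ i, 2 * Real.cos (2 * Real.pi * k i) : ℝ) : ℂ) - z)⁻¹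

theorem cube_eq : Pool.Agent.TH794.QE.cube 2 = volume.restrict (Set.Icc (0 : Fin 2 → ℝ) 1) := by
  unfold Pool.Agent.TH794.QE.cube
  rw [volume_pi, ← Set.pi_univ_Icc, Measure.restrict_pi_pi]
  rfl

theorem R0_eq (z : ℂ) (hz : 0 < z.im) :
    Pool.Agent.TH794.QD.GF (Pool.Agent.TH794.QD.F0 2) z = R0 z := by
  rw [Pool.Agent.TH794.QE.GF0_cube 2 z hz, cube_eq]
  rfl

theorem R1_eq (z : ℂ) (hz : 0 < z.im) :
    Pool.Agent.TH794.QD.GF (Pool.Agent.TH794.QD.F1 2) z = R1 z := by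
  rw [Pool.Agent.TH794.QE.GF1_cube 1 z hz, cube_eq]
  rfl

theorem green_iff (ω : (Fin 2 → ℤ) → ℝ) (a : Fin 2 → ℤ) (e η : ℝ)
    (u : (Fin 2 → ℤ) → ℂ) : IsGreen ω a e η u ↔
      Pool.Agent.TH794.QE.Rs 2 (fun x => 2 * ((2 : ℕ) : ℝ) + ω x) a e η u := by
  have h : ∀ x, H ω u x =
      -Pool.Agent.W788.LD.Spec.S u x + ((2 * ((2 : ℕ) : ℝ) + ω x : ℝ) : ℂ) * u x := by
    intro x
    unfold H Pool.Agent.W788.LD.Spec.S
    rw [Fin.sum_univ_two, Fin.sum_univ_two]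
    push_cast
    ring
  constructor
  · intro hu
    refine ⟨hu.sq, fun x => ?_⟩
    rw [← h]
    exact hu.eq x
  · intro hu
    refine ⟨hu.sq, fun x => ?_⟩
    rw [h]
    exact hu.eq x

theorem unif_sq (c : ℝ) (hc : 0 < c) : ∫ s, s ^ 2 ∂(unif c) = c ^ 2 / 3 := by
  unfold unif
  rw [integral_smul_measure, integral_Icc_eq_integral_Ioc,
    ← intervalIntegral.integral_of_le (by linarith), integral_pow,
    ENNReal.toReal_ofReal (by positivity), smul_eq_mul]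
  field_simp
  ring

/-- **Theorem.** -/
theorem result : ∃ g0 g1 : ℝ → ℂ,
    (∀ E : ℝ, 0 < |E| → |E| < 4 →
      Tendsto (fun t : ℝ => R0 ((E : ℂ) + (t : ℂ) * Complex.I)) (𝓝[>] 0) (𝓝 (g0 E)) ∧
      Tendsto (fun t : ℝ => R1 ((E : ℂ) + (t : ℂ) * Complex.I)) (𝓝[>] 0) (𝓝 (g1 E)) ∧
      0 < (g1 E).im ∧ (g1 E).im ≤ (g0 E).im) ∧
    ∀ κ : ℝ, 0 < κ → κ ≤ 1 → ∃ c0 : ℝ, 0 < c0 ∧ ∀ c : ℝ, 0 < c → c ≤ c0 →
      ∃ G : Set ((Fin 2 → ℤ) → ℝ), MeasurableSet G ∧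
        1 - Real.exp (-c ^ (-(1 / 101) : ℝ)) ≤
          (Measure.infinitePi fun _ : Fin 2 → ℤ => unif c).real G ∧
        ∀ ω ∈ G, ∀ a : Fin 2 → ℤ, ‖a‖ ≤ Real.exp (c ^ (-(1 / 101) : ℝ)) →
          ∀ e : ℝ, κ ≤ |4 - e| → |4 - e| ≤ 4 - κ →
          ∀ η : ℝ, c ^ (81 / 40 : ℝ) ≤ η → η ≤ c ^ 2 / 3 →
            (∃ u, IsGreen ω a e η u) ∧
            ∀ u, IsGreen ω a e η u → ∀ j : Fin 2,
              (Summable fun x : Fin 2 → ℤ => ((x j : ℝ) - a j) ^ 2 * ‖u x‖ ^ 2) ∧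
              |c ^ 2 / 3 * (η ^ 2 * ∑' x : Fin 2 → ℤ, ((x j : ℝ) - a j) ^ 2 * ‖u x‖ ^ 2) -
                2 * (g1 (4 - e)).im / (3 * η / c ^ 2 + (g0 (4 - e)).im)| ≤
                c ^ (1 / 300 : ℝ) := by
  obtain ⟨g0, g1, h⟩ := Pool.Agent.TH794.QE.finF Pool.Agent.W193.BK.ES.es
    (Pool.Agent.W261.BK.third Pool.Agent.W540.BK.fac)
    (Pool.Agent.W240.BK.fluct (Pool.Agent.W240.BK.var Pool.Agent.W193.BK.ES.es))
    Pool.Agent.W475.BK.inv Pool.Agent.W975.BK.sup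
    (Pool.Agent.W465.BK.qb (Pool.Agent.W240.BK.two Pool.Agent.W918.BK.Osc.osc))
    Pool.Agent.W475.BK.low Pool.Agent.W790.BK.ADM.adm Pool.Agent.W540.BK.fac
    Pool.Agent.W918.BK.Osc.osc 2 le_rfl
  have hreg : ∀ κ E : ℝ, κ ≤ |E| → |E| ≤ 4 - κ → Pool.Agent.TH794.QE.RegE 2 κ E :=
    fun κ E h1 h2 => Or.inl ⟨rfl, h1, h2⟩
  have hpos : ∀ t : ℝ, t ∈ Set.Ioi (0 : ℝ) → ∀ E : ℝ, 0 < ((E : ℂ) + (t : ℂ) * Complex.I).im := by
    intro t ht E
    simpa using ht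
  refine ⟨g0, g1, fun E hE0 hE4 => ?_, fun κ hκ hκ1 => ?_⟩
  · obtain ⟨κ, hκ⟩ : ∃ κ, κ = min 1 (min |E| (4 - |E|)) := ⟨_, rfl⟩
    have hκ0 : 0 < κ := by
      rw [hκ]
      exact lt_min one_pos (lt_min hE0 (by linarith))
    have hκ1 : κ ≤ 1 := by rw [hκ]; exact min_le_left _ _
    have hk1 : κ ≤ |E| := by rw [hκ]; exact (min_le_right _ _).trans (min_le_left _ _)
    have hk2 : |E| ≤ 4 - κ := by
      have : κ ≤ 4 - |E| := by rw [hκ]; exact (min_le_right _ _).trans (min_le_right _ _)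
      linarith
    obtain ⟨h1, ⟨m, hm, h2⟩, -⟩ := h κ hκ0 hκ1
    obtain ⟨k1, k2, k3, k4⟩ := h1 E (hreg κ E hk1 hk2)
    have k5 := h2 E (hreg κ E hk1 hk2) (by
      push_cast
      linarith)
    refine ⟨k1.congr' ?_, k2.congr' ?_, by linarith, k4⟩
    · filter_upwards [self_mem_nhdsWithin] with t ht
      exact R0_eq _ (hpos t ht E)
    · filter_upwards [self_mem_nhdsWithin] with t ht
      exact R1_eq _ (hpos t ht E)
  · obtain ⟨-, -, h3⟩ := h κ hκ hκ1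
    obtain ⟨c0, hc0, h4⟩ := h3 (1 / 3) (by norm_num)
    refine ⟨c0, hc0, fun c hc hcc => ?_⟩
    have hb : ∀ᵐ s ∂(unif c), |s| ≤ c := Pool.Agent.W788.LD.Uni.unif_bdd c
    have hm : ∫ s, s ∂(unif c) = 0 := Pool.Agent.W788.LD.Uni.unif_mean c hc
    obtain ⟨G, hG, hP, hL⟩ := h4 c hc hcc (unif c) (Pool.Agent.W788.LD.Uni.unif_prob c hc) hb hm
      (c ^ 2 / 3) (unif_sq c hc) (by linarith)
    refine ⟨G, hG, hP, fun ω hω a ha e he1 he2 η hη1 hη2 => ?_⟩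
    obtain ⟨hωb, hL'⟩ := hL ω hω
    have hη0 : 0 < η := lt_of_lt_of_le (Real.rpow_pos_of_pos hc _) hη1
    have hEe : 2 * ((2 : ℕ) : ℝ) - e = 4 - e := by
      push_cast
      ring
    refine ⟨?_, fun u hu j => ?_⟩
    · obtain ⟨u, hu⟩ := Pool.Agent.TH794.QE.rs_exists
        (fun x => 2 * ((2 : ℕ) : ℝ) + ω x)
        (2 * ((2 : ℕ) : ℝ) + c) (fun x => by
          refine (abs_add_le _ _).trans ?_
          rw [abs_of_nonneg (by positivity : (0 : ℝ) ≤ 2 * ((2 : ℕ) : ℝ))]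
          have := hωb x
          linarith) a e η hη0
      exact ⟨u, (green_iff ω a e η u).2 hu⟩
    · obtain ⟨h5, h6⟩ := hL' a ha e (by
        rw [hEe]
        exact hreg κ _ he1 he2) η hη1 hη2 u ((green_iff ω a e η u).1 hu) j
      refine ⟨h5, ?_⟩
      rw [hEe] at h6
      unfold Pool.Agent.TH794.QE.Pg Pool.Agent.TH794.QE.QM at h6
      have e1 : η / (c ^ 2 / 3) = 3 * η / c ^ 2 := by
        field_simp
      rw [e1] at h6
      have e2 : c ^ 2 / 3 * (η ^ 2 * ∑' x : Fin 2 → ℤ, ((x j : ℝ) - a j) ^ 2 * ‖u x‖ ^ 2) -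
          2 * (g1 (4 - e)).im / (3 * η / c ^ 2 + (g0 (4 - e)).im) =
          η ^ 2 * (c ^ 2 / 3) * ∑' x : Fin 2 → ℤ, ((x j : ℝ) - a j) ^ 2 * ‖u x‖ ^ 2 -
            2 * ((g1 (4 - e)).im / (3 * η / c ^ 2 + (g0 (4 - e)).im)) := by
        ring
      rw [e2]
      exact h6

end Pool.Agent.Results.MP_562b47_mp.PlanarConductivity
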